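import Pool.Agent.H78.GX.H6.N4D.TA

/-! (CUT) the cut-off costs little. -/

set_option autoImplicit false

namespace Pool.Agent.H78.GX.H81.N4D

open Finset Pool.Agent.H6.N4D Pool.Agent.H78.GX.H6.N4D Pool.Agent.H78.GX

theorem sq_add_le (a b : ℝ) : (a + b) ^ 2 ≤ 2 * a ^ 2 + 2 * b ^ 2 := by
  nlinarith [sq_nonneg (a - b)]

theorem card_two (I : Finset ℤ) (l : ℤ) :
    ((I ∪ I.image (fun t => t - l)).card : ℝ) ≤ 2 * I.card := by
  have h1 : (I ∪ I.image (fun t => t - l)).card ≤ I.card + I.card :=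
    (Finset.card_union_le _ _).trans (Nat.add_le_add_left Finset.card_image_le _)
  have h2 : ((I ∪ I.image (fun t => t - l)).card : ℝ) ≤ ((I.card + I.card : ℕ) : ℝ) := by
    exact_mod_cast h1
  push_cast at h2
  linarith

theorem cut_sign (hCHI : T_CHI) (S : Par) (hS : Okx S) (hL : 0 < S.L) (M : ℝ) (f : ℤ → ℂ)
    (hf : ∀ t, ‖f t‖ ≤ M) (l : ℤ) (s : ℂ) (hs : s = 1 ∨ s = -1) :
    ∑' t : ℤ, ‖(chi S (t + l) : ℂ) * f (t + l) + s * ((chi S t : ℂ) * f t)‖ ^ 2 ≤
      2 * ∑ t ∈ S.I.filter (fun t => t - l ∈ S.I), ‖f (t - l) + s * f t‖ ^ 2 +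
        4 * M ^ 2 * (|(l : ℝ)| * S.h / (S.K * S.L)) ^ 2 * S.N := by
  classical
  obtain ⟨h01, hout, -, hlip⟩ := hCHI S hS hL
  have hM : 0 ≤ M := (norm_nonneg _).trans (hf 0)
  have hN : 0 ≤ S.N := by
    have h1 : 0 ≤ S.N * S.h := by
      refine le_trans ?_ hS.hI1
      positivity
    exact nonneg_of_mul_nonneg_left h1 hS.hh
  have hcard := Par.card_I hN
  have hs1 : ‖s‖ = 1 := by
    rcases hs with h | h <;> rw [h] <;> simp
  have hss : s * s = 1 := by
    rcases hs with h | h <;> rw [h] <;> norm_num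
  set Lip : ℝ := |(l : ℝ)| * S.h / (S.K * S.L) with hLip
  have hLip0 : 0 ≤ Lip := by
    have := hS.hh
    positivity
  set W : Finset ℤ := S.I ∪ S.I.image (fun t => t - l) with hW
  have hmemW : ∀ t, t ∈ W ↔ t ∈ S.I ∨ t + l ∈ S.I := by
    intro t
    rw [hW, Finset.mem_union, Finset.mem_image]
    constructor
    · rintro (h | ⟨u, hu, rfl⟩)
      · exact Or.inl h
      · right
        rwa [sub_add_cancel]
    · rintro (h | h)
      · exact Or.inl h
      · exact Or.inr ⟨t + l, h, by rw [add_sub_cancel_right]⟩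
  have hnc : ∀ t, ‖(chi S t : ℂ)‖ = chi S t := fun t => by
    rw [Complex.norm_real, Real.norm_eq_abs, abs_of_nonneg (h01 t).1]
  have hpt : ∀ t ∈ W, ‖(chi S (t + l) : ℂ) * f (t + l) + s * ((chi S t : ℂ) * f t)‖ ^ 2 ≤
      (if t ∈ S.I ∧ t + l ∈ S.I then 2 * ‖f (t + l) + s * f t‖ ^ 2 else 0) +
        2 * (Lip * M) ^ 2 := by
    intro t ht
    have hLM : 0 ≤ Lip * M := mul_nonneg hLip0 hM
    by_cases h1 : t ∈ S.I
    · by_cases h2 : t + l ∈ S.I
      · rw [if_pos ⟨h1, h2⟩]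
        have h3 : (chi S (t + l) : ℂ) * f (t + l) + s * ((chi S t : ℂ) * f t) =
            (chi S t : ℂ) * (f (t + l) + s * f t) +
              (((chi S (t + l) - chi S t : ℝ)) : ℂ) * f (t + l) := by
          push_cast
          ring
        have h4 : ‖(chi S (t + l) : ℂ) * f (t + l) + s * ((chi S t : ℂ) * f t)‖ ≤
            ‖f (t + l) + s * f t‖ + Lip * M := by
          rw [h3]
          refine (norm_add_le _ _).trans (add_le_add ?_ ?_)
          · rw [norm_mul, hnc]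
            exact mul_le_of_le_one_left (norm_nonneg _) (h01 t).2
          · rw [norm_mul, Complex.norm_real, Real.norm_eq_abs]
            exact mul_le_mul (hlip t l) (hf _) (norm_nonneg _) hLip0
        calc ‖(chi S (t + l) : ℂ) * f (t + l) + s * ((chi S t : ℂ) * f t)‖ ^ 2
            ≤ (‖f (t + l) + s * f t‖ + Lip * M) ^ 2 :=
              pow_le_pow_left₀ (norm_nonneg _) h4 2
          _ ≤ 2 * ‖f (t + l) + s * f t‖ ^ 2 + 2 * (Lip * M) ^ 2 := sq_add_le _ _
      · rw [if_neg (fun h => h2 h.2), zero_add]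
        have h0 : chi S (t + l) = 0 := hout _ h2
        have h5 : |chi S (t + l) - chi S t| = chi S t := by
          rw [h0, zero_sub, abs_neg, abs_of_nonneg (h01 t).1]
        have h4 : ‖(chi S (t + l) : ℂ) * f (t + l) + s * ((chi S t : ℂ) * f t)‖ ≤ Lip * M := by
          rw [h0, Complex.ofReal_zero, zero_mul, zero_add, norm_mul, hs1, one_mul, norm_mul, hnc,
            ← h5]
          exact mul_le_mul (hlip t l) (hf _) (norm_nonneg _) hLip0
        have h6 := pow_le_pow_left₀ (norm_nonneg _) h4 2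
        have h7 : 0 ≤ (Lip * M) ^ 2 := sq_nonneg _
        linarith
    · have h2 : t + l ∈ S.I := ((hmemW t).1 ht).resolve_left h1
      rw [if_neg (fun h => h1 h.1), zero_add]
      have h0 : chi S t = 0 := hout _ h1
      have h5 : |chi S (t + l) - chi S t| = chi S (t + l) := by
        rw [h0, sub_zero, abs_of_nonneg (h01 _).1]
      have h4 : ‖(chi S (t + l) : ℂ) * f (t + l) + s * ((chi S t : ℂ) * f t)‖ ≤ Lip * M := by
        rw [h0, Complex.ofReal_zero, zero_mul, mul_zero, add_zero, norm_mul, hnc, ← h5]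
        exact mul_le_mul (hlip t l) (hf _) (norm_nonneg _) hLip0
      have h6 := pow_le_pow_left₀ (norm_nonneg _) h4 2
      have h7 : 0 ≤ (Lip * M) ^ 2 := sq_nonneg _
      linarith
  have hts : ∑' t : ℤ, ‖(chi S (t + l) : ℂ) * f (t + l) + s * ((chi S t : ℂ) * f t)‖ ^ 2 =
      ∑ t ∈ W, ‖(chi S (t + l) : ℂ) * f (t + l) + s * ((chi S t : ℂ) * f t)‖ ^ 2 := by
    refine tsum_eq_sum fun t ht => ?_
    rw [hmemW, not_or] at ht
    rw [hout _ ht.1, hout _ ht.2]
    simp
  have hsum : ∑ t ∈ W, (if t ∈ S.I ∧ t + l ∈ S.I then 2 * ‖f (t + l) + s * f t‖ ^ 2 else 0) =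
      2 * ∑ t ∈ S.I.filter (fun t => t - l ∈ S.I), ‖f (t - l) + s * f t‖ ^ 2 := by
    rw [← Finset.sum_filter, Finset.mul_sum]
    refine Finset.sum_nbij' (fun t => t + l) (fun t => t - l) ?_ ?_ ?_ ?_ ?_
    · intro t ht
      obtain ⟨-, h1, h2⟩ := Finset.mem_filter.1 ht
      refine Finset.mem_filter.2 ⟨h2, ?_⟩
      rwa [add_sub_cancel_right]
    · intro t ht
      obtain ⟨h1, h2⟩ := Finset.mem_filter.1 ht
      refine Finset.mem_filter.2 ⟨(hmemW _).2 (Or.inl h2), h2, ?_⟩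
      rwa [sub_add_cancel]
    · intro t _
      rw [add_sub_cancel_right]
    · intro t _
      rw [sub_add_cancel]
    · intro t _
      rw [add_sub_cancel_right]
      congr 2
      have h3 : f t + s * f (t + l) = s * (f (t + l) + s * f t) := by
        rw [mul_add, ← mul_assoc, hss, one_mul, add_comm]
      rw [h3, norm_mul, hs1, one_mul]
  rw [hts]
  calc ∑ t ∈ W, ‖(chi S (t + l) : ℂ) * f (t + l) + s * ((chi S t : ℂ) * f t)‖ ^ 2
      ≤ ∑ t ∈ W, ((if t ∈ S.I ∧ t + l ∈ S.I then 2 * ‖f (t + l) + s * f t‖ ^ 2 else 0) +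
        2 * (Lip * M) ^ 2) := Finset.sum_le_sum hpt
    _ = 2 * ∑ t ∈ S.I.filter (fun t => t - l ∈ S.I), ‖f (t - l) + s * f t‖ ^ 2 +
        W.card * (2 * (Lip * M) ^ 2) := by
        rw [Finset.sum_add_distrib, hsum, Finset.sum_const, nsmul_eq_mul]
    _ ≤ 2 * ∑ t ∈ S.I.filter (fun t => t - l ∈ S.I), ‖f (t - l) + s * f t‖ ^ 2 +
        (2 * S.N) * (2 * (Lip * M) ^ 2) := by
        have h8 := card_two S.I l
        rw [hcard] at h8
        have h9 : (W.card : ℝ) * (2 * (Lip * M) ^ 2) ≤ 2 * S.N * (2 * (Lip * M) ^ 2) :=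
          mul_le_mul_of_nonneg_right h8 (by positivity)
        linarith
    _ = _ := by ring

theorem pf_CUT (hCHI : T_CHI) : T_CUT := by
  intro S hS hL M f hf l
  constructor
  · have h := cut_sign hCHI S hS hL M f hf l (-1) (Or.inr rfl)
    unfold Dg Asq
    have e1 : ∀ t : ℤ, ‖(chi S (t + l) : ℂ) * f (t + l) - (chi S t : ℂ) * f t‖ ^ 2 =
        ‖(chi S (t + l) : ℂ) * f (t + l) + (-1) * ((chi S t : ℂ) * f t)‖ ^ 2 := by
      intro t
      congr 2
      ring
    have e2 : ∀ t : ℤ, ‖f (t - l) - f t‖ ^ 2 = ‖f (t - l) + (-1) * f t‖ ^ 2 := by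
      intro t
      congr 2
      ring
    simp only [e1, e2]
    exact h
  · have h := cut_sign hCHI S hS hL M f hf l 1 (Or.inl rfl)
    unfold Dp Asp
    simp only [one_mul] at h
    exact h

end Pool.Agent.H78.GX.H81.N4D
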